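import Pool.Agent.Work.MP_6f78fb_lin.Final
import Pool.Agent.Work.MP_6f78fb_rk.Stmt

/-!
# MP_6f78fb_co: equivariant log-concavity of `R(UZ_{n,m,r})` for `7 r ≤ min n m + 4`

Definitions (`Poly`, `IsRook`, `UZ`, `vanI`, `topForm`, `grI`, `V`, `VT`, `TV`, `HasSurj`, `TopDeg`,
`EquivLogConcave`) are in `Pool.Agent.Work.MP_6f78fb_rk.Orbit` and `.Stmt`.
-/

namespace Pool.Agent.Results.MP_6f78fb_co.LinearRange

open Pool.RookLC

theorem result : ∀ n m r : ℕ, 1 ≤ r →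
    (∀ i : ℕ, 1 ≤ i → i < n → i < m → ((i + r ≤ n ∧ i + r ≤ m) ∨ 6 * r ≤ i + 3) →
      HasSurj n m r i) ∧
    (7 * r ≤ n + 4 → 7 * r ≤ m + 4 → EquivLogConcave n m r) :=
  fun _ _ _ hr => ⟨fun _ hi hn hm h => hasSurj_of (Lin.lin_surj hi hn hm h),
    fun hn hm => equivLogConcave_of (Lin.lin_logconc hr hn hm)⟩

end Pool.Agent.Results.MP_6f78fb_co.LinearRange
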