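import Pool.Agent.Work.MP_6f78fb_rk_helper49.Fin
import Pool.Agent.Work.MP_6f78fb_rk.Stmt

/-!
# MP_6f78fb_co: equivariant log-concavity of `R(UZ_{n,m,r})` for long boards

Definitions (`Poly`, `IsRook`, `UZ`, `vanI`, `topForm`, `grI`, `V`, `VT`, `TV`, `HasSurj`, `TopDeg`,
`EquivLogConcave`) are in `Pool.Agent.Work.MP_6f78fb_rk.Orbit` and `.Stmt`.
-/

namespace Pool.Agent.Results.MP_6f78fb_co.LongBoards

open Pool.RookLC

theorem result : ∀ n m r : ℕ, 1 ≤ r → r ≤ n → r ≤ m →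
    (∀ i : ℕ, 1 ≤ i → ((4 * i ≤ m ∧ r + i ≤ m) ∨ (4 * i ≤ n ∧ r + i ≤ n)) → HasSurj n m r i) ∧
    ((4 * n ≤ m + 4 ∨ 4 * m ≤ n + 4) → EquivLogConcave n m r) :=
  fun _ _ _ _ hn hm => ⟨fun _ hi h => hasSurj_of (All.surj_long hn hm hi h),
    fun h => equivLogConcave_of (All.logconc_long hn hm h)⟩

end Pool.Agent.Results.MP_6f78fb_co.LongBoards
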