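import Pool.Agent.Work.MP_6f78fb_rk_helper49.Fin
import Pool.Agent.Work.MP_6f78fb_rk.Stmt

/-!
# MP_6f78fb_co: the surjections in low degrees for `r ≥ min(n, m) - 1`

Definitions (`Poly`, `IsRook`, `UZ`, `vanI`, `topForm`, `grI`, `V`, `VT`, `TV`, `HasSurj`) are in
`Pool.Agent.Work.MP_6f78fb_rk.Orbit` and `.Stmt`. The case `n = m = r` is the conjecture of Rhoades for
`R(S_n)` in all degrees `i ≤ n / 4`.
-/

namespace Pool.Agent.Results.MP_6f78fb_co.LowDegrees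

open Pool.RookLC

theorem result : ∀ n m r i : ℕ, 1 ≤ r → r ≤ n → r ≤ m → (n ≤ r + 1 ∨ m ≤ r + 1) → 1 ≤ i →
    4 * i ≤ n → 4 * i ≤ m → HasSurj n m r i :=
  fun _ _ _ _ _ hn hm hr hi h4 h4' => hasSurj_of (All.surj_low hn hm hr hi h4 h4')

end Pool.Agent.Results.MP_6f78fb_co.LowDegrees
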