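import Pool.Agent.Work.MP_6f78fb_nl.Final
import Pool.Agent.Work.MP_6f78fb_nl.Stmt

/-!
# MP_6f78fb_co: log-concavity of the Hilbert function of `R(UZ_{n,m,r})`, and equivariant log-concavity under
subgroups acting freely on the variables, for `9 min n m ≤ (min n m + 1 - r) ^ 2`

Definitions (`Poly`, `IsRook`, `UZ`, `vanI`, `topForm`, `grI`, `V`, `VT`, `TV`, `TopDeg`) are in
`Pool.Agent.Work.MP_6f78fb_rk.Orbit` and `.Stmt`; `FreeOn`, `HasSurjOn`, `EquivLogConcaveOn`, `hilb` are in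
`Pool.Agent.Work.MP_6f78fb_nl.Stmt`.
-/

namespace Pool.Agent.Results.MP_6f78fb_co.SquareRootRange

open Pool.RookLC

theorem result : ∀ n m r : ℕ, 1 ≤ r →
    (∀ i : ℕ, 1 ≤ i → i < min n m → (i + r ≤ min n m ∨ 9 * i ≤ (min n m + 1 - r) ^ 2) →
      (∀ H : Subgroup (G n m), FreeOn H → HasSurjOn H r i) ∧
      hilb n m r (i - 1) * hilb n m r (i + 1) ≤ hilb n m r i ^ 2) ∧
    (r ≤ min n m → 9 * min n m ≤ (min n m + 1 - r) ^ 2 →
      (∀ H : Subgroup (G n m), FreeOn H → EquivLogConcaveOn H r) ∧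
      ∀ i : ℕ, 1 ≤ i → hilb n m r (i - 1) * hilb n m r (i + 1) ≤ hilb n m r i ^ 2) :=
  NL.all

end Pool.Agent.Results.MP_6f78fb_co.SquareRootRange
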